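import Pool.Agent.Helper17.FP.Stmts

set_option autoImplicit false

/-! CHEB: Chebyshev's upper bound. -/

open Finset

namespace Pool.Agent.Helper17.FP

open Pool.Agent.Helper17.SO Pool.Agent.Helper17.SV

theorem cheb_card (N : ℕ) : (PP 0 N).card ≤ Nat.primeCounting N := by
  unfold Nat.primeCounting Nat.primeCounting'
  rw [Nat.count_eq_card_filter_range]
  apply Finset.card_le_card
  intro p hp
  unfold PP at hp
  rw [Finset.mem_filter, Finset.mem_Ioc] at hp
  rw [Finset.mem_filter, Finset.mem_range]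
  exact ⟨by omega, hp.2⟩

theorem st_CHEB : ST_CHEB := by
  obtain ⟨X0, hX0⟩ := Filter.eventually_atTop.1
    (Chebyshev.eventually_primeCounting_le (ε := 1) one_pos)
  have hlog4 : 0 ≤ Real.log 4 := Real.log_nonneg (by norm_num)
  have hlog : 0 ≤ Real.log (max X0 3) :=
    Real.log_nonneg ((by norm_num : (1 : ℝ) ≤ 3).trans (le_max_right _ _))
  refine ⟨(Real.log 4 + 1) + Real.log (max X0 3), by positivity, ?_⟩
  intro N hN
  have hN2 : (2 : ℝ) ≤ N := by exact_mod_cast hN
  have hlN : 0 < Real.log N := Real.log_pos (by linarith)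
  rw [le_div_iff₀ hlN]
  have hcard : ((PP 0 N).card : ℝ) ≤ (Nat.primeCounting N : ℝ) := by exact_mod_cast cheb_card N
  by_cases h : X0 ≤ (N : ℝ)
  · have h1 := hX0 N h
    rw [Nat.floor_natCast, le_div_iff₀ hlN] at h1
    have h2 := mul_le_mul_of_nonneg_right hcard hlN.le
    have h3 : 0 ≤ Real.log (max X0 3) * N := by positivity
    linarith
  · push Not at h
    have h1 : ((PP 0 N).card : ℝ) ≤ N := by
      have : (PP 0 N).card ≤ (Finset.Ioc 0 N).card := Finset.card_filter_le _ _
      rw [Nat.card_Ioc, Nat.sub_zero] at this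
      exact_mod_cast this
    have h2 : Real.log N ≤ Real.log (max X0 3) :=
      Real.log_le_log (by linarith) (h.le.trans (le_max_left _ _))
    have h3 : ((PP 0 N).card : ℝ) * Real.log N ≤ N * Real.log (max X0 3) :=
      mul_le_mul h1 h2 hlN.le (by linarith)
    have h4 : 0 ≤ (Real.log 4 + 1) * N := by positivity
    linarith

end Pool.Agent.Helper17.FP
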